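import Pool.Agent.Q54.EM.StmE
import Pool.Agent.Q113.XM.Stm

/-!
# Project XU: stability of the i.i.d. inequality at the critical density, `k ≥ 6`; the exact Erdős matching
conjecture for all `n ≥ n0(k)` and all `s`

A law has values `x i ∈ [0, k]`, mean `r` (`RC k r`: the crossing point, `r = k c`), threshold `k`, as in
project EM (`Q54.EM`). `KEY k` is `1 - r^k ≤ PR p x k k`. Here: near-equality only near the star law (values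
`0`, `k`) and near the clique law (values `0`, `1`).

Every `S_X : Prop` is a statement; the docstring gives its proof.
-/

set_option autoImplicit false

namespace Pool.Agent.Q113.XU

open Finset Pool.Agent.Q54.EM Pool.Agent.Q113.XM Pool.Agent.W890.SF Pool.Agent.W593.IR Filter Topology

/-- distance to the laws with values `0`, `k` -/
noncomputable def dS {ι : Type} [Fintype ι] (k : ℕ) (p x : ι → ℝ) : ℝ :=
  ∑ i, p i * min (x i) (k - x i)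

/-- distance to the laws with values `0`, `1` -/
noncomputable def dC {ι : Type} [Fintype ι] (p x : ι → ℝ) : ℝ :=
  ∑ i, p i * min (x i) |x i - 1|

/-- laws with values in `[0, k]` and mean `r` -/
structure Fz {ι : Type} [Fintype ι] (k : ℕ) (r : ℝ) (p x : ι → ℝ) : Prop where
  p0 : ∀ i, 0 ≤ p i
  p1 : ∑ i, p i = 1
  x0 : ∀ i, 0 ≤ x i
  xk : ∀ i, x i ≤ k
  m : mu p x = r

/-! ## Part A: local stability -/

/-- LSS (near the star law). `A = {x ≤ k/2}`, `B = {x > k/2}`, `b = ∑_B p`, `m = ∑_A p x`,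
`σ = ∑_B p (k - x)`; so `dS = m + σ`, `r = m + k b - σ`; `s_j = k - x_j ∈ [0, k/2)` for `j ∈ B`.
(a) `P(all entries in A, S_k ≥ k) ≤ 2 m^2` (when all entries are `≤ k/2` and the sum `S ≥ k`,
`∑_{i≠j} x_i x_j ≥ S^2 - S k/2 ≥ k^2/2`; or size bias `SZB` and Markov). (b) for `j ∈ B`,
`P(S_{k-1} < s_j) = P(all in A, S_{k-1} < s_j) ≥ (1-b)^(k-1) φ(s_j)`, `φ(s) = max 0 (1 - M/s)`,
`M = (k-1) m/(1-b)` (Markov). (c) as in `Q54.EM.S_DEC`,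
`PR p x k k = P(all in A, S_k < k) + k ∑_{j∈B} p_j P(S_{k-1} < s_j)
≥ (1-b)^k - 2 m^2 + k (1-b)^(k-1) ∑_B p_j φ(s_j)`. (d) for `0 ≤ ρ ≤ 1`, `M ≤ k/2`, `0 ≤ s ≤ k/2`:
`k φ(s) - s ≥ -M + ρ (s - M)` (for `s ≤ M` clear; for `s ≥ M` the difference is concave in `s`, it is `0` at
`s = M` and `(k/2 - M)(1-ρ) ≥ 0` at `s = k/2`). (e) `1 - r^k = (1-r/k)^k` and, with `u = 1-b`,
`v = (σ-m)/k`, `(u+v)^k ≤ u^k + k u^(k-1) v + k^2 v^2` (`u`, `u+v ∈ [0,1]`). (f) so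
`PR - (1-r^k) ≥ (1-b)^(k-1) (ρ σ + m (1 - (1+ρ) b (k-1)/(1-b))) - 3 (m+σ)^2`; as `k b ≤ r + γ0 < 1` one has
`b (k-1)/(1-b) ≤ (r+γ0)(k-1)/(k-(r+γ0)) < 1`, choose `ρ` small, then `γ0`. -/
def S_LSS : Prop := ∀ (k : ℕ) (r : ℝ), 2 ≤ k → RC k r → ∃ κ γ0 : ℝ, 0 < κ ∧ 0 < γ0 ∧
  ∀ (ι : Type) [Fintype ι] (p x : ι → ℝ), Fz k r p x → dS k p x ≤ γ0 →
    1 - r ^ k + κ * dS k p x ≤ PR p x k k

/-- CTE (at most one exceptional entry). `L = {x ≤ g}`, `A = {g < x ≤ 1+g}`, `E = {x > 1+g}`. Pointwise for a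
tuple with sum at least `k`: if no entry is in `E` then all are in `A` (else the sum is at most
`g + (k-1)(1+g) = k - 1 + k g < k`); if exactly one entry is in `E`, with value `< 2 - k g`, then all others
are in `A` (else the sum is `< 2 - k g + g + (k-2)(1+g) = k`); otherwise at least two entries are in `E`. Use the
tuple formula (`TUP`) and product sums. -/
def S_CTE : Prop := ∀ (ι : Type) [Fintype ι] (p x : ι → ℝ) (k : ℕ) (g : ℝ), 2 ≤ k → (∀ i, 0 ≤ p i) →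
  ∑ i, p i = 1 → (∀ i, 0 ≤ x i) → 0 < g → k * g < 1 →
  EE p x k (fun s => if (k : ℝ) ≤ s then 1 else 0) ≤
    EE (fun i => if g < x i ∧ x i ≤ 1 + g then p i else 0) x k (fun s => if (k : ℝ) ≤ s then 1 else 0) +
    k * ∑ i, (if 1 + g < x i then p i else 0) * (if x i < 2 - k * g then
      (∑ j, if g < x j ∧ x j ≤ 1 + g then p j else 0) ^ (k - 1) else 1) +
    k ^ 2 * (∑ i, if 1 + g < x i then p i else 0) ^ 2

/-- CAA (values at least `g`, mean close to one). If `mu = m > 1`: the left side is at most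
`1 ≤ m^k - k (m-1)`. If `m ≤ 1`: with `x'' = max (x - g) 0/(1-g)` a sum `≥ k` stays `≥ k`; the mean of `x''` is
`m'' = (m-g)/(1-g) = 1 - (1-m)/(1-g) ∈ [r, 1]`; `LMW` for `y = x''/k` and `CRF` (with `c = r/k`) give at most
`m''^k`, and `m^k - m''^k ≥ k m''^(k-1) (m - m'')`, `m - m'' = (1-m) g/(1-g)`. -/
def S_CAA : Prop := ∀ (k : ℕ) (r g : ℝ), 2 ≤ k → LMW k → RC k r → 0 < g → g < 1 → ∃ κ : ℝ, 0 < κ ∧
  ∀ (ι : Type) [Fintype ι] (q x : ι → ℝ), (∀ i, 0 ≤ q i) → ∑ i, q i = 1 → (∀ i, 0 ≤ x i) →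
    (∀ i, q i ≠ 0 → g ≤ x i) → |mu q x - 1| ≤ κ →
    EE q x k (fun s => if (k : ℝ) ≤ s then 1 else 0) ≤ mu q x ^ k - κ * |mu q x - 1|

/-- LCS (near the clique law). `2 r^(k-1) > 1` by `CRF` (`c = r/k`); let `0 < g ≤ 1/(4k)` with
`(2 - k g) r^(k-1) > 1 + g`. `L`, `A`, `E` as in `CTE`; `a`, `e` the masses of `A`, `E`, `mL = ∑_L p x`,
`m_A = (∑_A p x)/a`. Then `mL ≤ dC`, `e ≤ dC/g`, `∑_A p |x-1| ≤ dC/g`, `∑_E p x ≤ (1+1/g) dC`, so `a` is close to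
`r` and `|m_A - 1| ≤ dC/(g a)`. `CAA` for the conditional law on `A`: the first term of `CTE` is at most
`a^k (m_A^k - κ' |m_A-1|)`. Second term: for `x < 2 - k g`, `a^(k-1) ≤ a^(k-1) (x - g)`; for `x ≥ 2 - k g`,
`1 ≤ a^(k-1) x - g/2`; so it is at most `k a^(k-1) ∑_E p x - k κ1 e`. And
`r^k ≥ (a m_A)^k + k (a m_A)^(k-1) (mL + ∑_E p x)`, `a^(k-1) - (a m_A)^(k-1) ≤ (k-1) |m_A-1|`. Hence, with
`D = PR - (1 - r^k)`: `D ≥ κ2 (|m_A-1| + mL + e)` for `dC ≤ γ0`. As `x ≤ k`, `∑_E p x ≤ k e`; `CTE` gives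
`a^k F ≥ r^k - C D` for the conditional probability `F` of `S ≥ k` on `A`, and `a m_A ≤ r`, so `F ≥ 1 - C' D`,
`m_A ≤ 1 + D/κ2`; `CNC` (for `x/k`) gives `∑_A p |x-1| ≤ C'' D`. So `dC ≤ mL + ∑_A p|x-1| + k e ≤ C''' D`. -/
def S_LCS : Prop := ∀ (k : ℕ) (r : ℝ), 2 ≤ k → LMW k → RC k r → ∃ κ γ0 : ℝ, 0 < κ ∧ 0 < γ0 ∧
  ∀ (ι : Type) [Fintype ι] (p x : ι → ℝ), Fz k r p x → dC p x ≤ γ0 →
    1 - r ^ k + κ * dC p x ≤ PR p x k k

/-! ## Part B: local minimisers -/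

/-- the restricted class -/
def Rc {ι : Type} [Fintype ι] (k : ℕ) (r γ : ℝ) (o t : ι) (p x : ι → ℝ) : Prop :=
  Feas k r o t p x ∧ γ ≤ dS k p x ∧ γ ≤ dC p x

/-- RMN: a minimiser in the restricted class. Same proof as `Q54.EM.S_MIN` (`Q151/EM/Mn.lean`): `dS`, `dC` are
continuous in `(p, x)`, so the class is compact. -/
def S_RMN : Prop := ∀ (ι : Type) [Fintype ι] (k : ℕ) (r γ : ℝ) (o t : ι) (p0 x0 : ι → ℝ),
  Rc k r γ o t p0 x0 → ∃ p x : ι → ℝ, Rc k r γ o t p x ∧ PR p x k k ≤ PR p0 x0 k k ∧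
    ∀ p' x' : ι → ℝ, Rc k r γ o t p' x' → PR p x k k ≤ PR p' x' k k

/-- local minimisers -/
def Loc {ι : Type} [Fintype ι] (k : ℕ) (r : ℝ) (o t : ι) (p x : ι → ℝ) : Prop :=
  Feas k r o t p x ∧ ∃ ρ : ℝ, 0 < ρ ∧ ∀ p' x' : ι → ℝ, Feas k r o t p' x' → (∀ i, |p' i - p i| ≤ ρ) →
    (∀ i, |x' i - x i| ≤ ρ) → PR p x k k ≤ PR p' x' k k

/-- RLM: an interior restricted minimiser is a local minimiser (continuity of `dS`, `dC`). -/
def S_RLM : Prop := ∀ (ι : Type) [Fintype ι] (k : ℕ) (r γ : ℝ) (o t : ι) (p x : ι → ℝ),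
  Feas k r o t p x → γ < dS k p x → γ < dC p x →
  (∀ p' x' : ι → ℝ, Rc k r γ o t p' x' → PR p x k k ≤ PR p' x' k k) → Loc k r o t p x

/-- STRL: local version of `Q54.EM.S_STR`. For `(p', x')` close to `(p, x)` the mean `r'` is close to `r`, so
`s = (r - r')/(k - r')` is small and the mixture with the atom `t` is still close to `(p, x)`. -/
def S_STRL : Prop := ∀ (ι : Type) [Fintype ι] (k : ℕ) (r : ℝ) (o t : ι) (p x : ι → ℝ), 1 ≤ k →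
  r < 1 → Loc k r o t p x → ∃ ρ : ℝ, 0 < ρ ∧ ∀ p' x' : ι → ℝ, (∀ i, 0 ≤ p' i) → ∑ i, p' i = 1 →
  (∀ i, 0 ≤ x' i) → (∀ i, x' i ≤ k) → x' o = 0 → x' t = k → mu p' x' < r → (∀ i, |p' i - p i| ≤ ρ) →
  (∀ i, |x' i - x i| ≤ ρ) → PR p x k k < PR p' x' k k

/-- MBL: local version of `Q54.EM.S_MB1`, `S_MB2` (`Q75/EM/MB.lean`): the modified values are arbitrarily close
to `x` for small `d`. -/
def S_MBL : Prop := ∀ (ι : Type) [Fintype ι] (k : ℕ) (r : ℝ) (o t : ι) (p x : ι → ℝ), 1 ≤ k →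
  r < 1 → Loc k r o t p x → ∑ i, (if 0 < x i then p i else 0) ≤ r ∧
    k * ∑ i, (if (k : ℝ) / 2 < x i then p i else 0) ≤ r

/-- KKTL: local version of `Q54.EM.S_KKT` (`Q151/EM/Kkt.lean`): only small changes of the weights are used. -/
def S_KKTL : Prop := ∀ (ι : Type) [Fintype ι] (k : ℕ) (r : ℝ) (o t : ι) (p x : ι → ℝ), 2 ≤ k → 0 < r →
  r < 1 → Loc k r o t p x → PR p x k k < 1 →
  ∃ l : ℝ, 0 < l ∧ ∀ i, 0 < p i → PR p x (k - 1) (k - x i) = PR p x (k - 1) k * (1 - x i / l)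

/-- the properties of a local minimiser with positive weights (`Q54.EM.Opt` without the last field) -/
structure Op {ι : Type} [Fintype ι] (k : ℕ) (p x : ι → ℝ) (r l : ℝ) : Prop where
  law : Law p x
  m : mu p x = r
  kk : KK k p x l
  xk : ∀ i, x i ≤ k
  z : ∃ i, x i = 0
  b1 : ∑ i, (if 0 < x i then p i else 0) ≤ r
  b2 : k * ∑ i, (if (k : ℝ) / 2 < x i then p i else 0) ≤ r

/-- LOP: restrict a local minimiser to its support, as in the proof of `Q54.EM.S_EXI`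
(`Q198/EM/EXI.lean`). -/
def S_LOP : Prop := ∀ (ι : Type) [Fintype ι] (k : ℕ) (r : ℝ) (o t : ι) (p x : ι → ℝ), 2 ≤ k → 0 < r →
  r < 1 → Loc k r o t p x → PR p x k k < 1 →
  ∃ (ι' : Type) (_ : Fintype ι') (p' x' : ι' → ℝ) (l : ℝ), Op k p' x' r l ∧
    PR p' x' k k = PR p x k k ∧ dS k p' x' = dS k p x ∧ dC p' x' = dC p x

/-! ## Part C: numbers -/

/-- the numerical facts (`Q54.EM.Num` without `WT`, with `h ≤ k`) -/
structure Nm (k : ℕ) (r l h w1 W : ℝ) : Prop where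
  k6 : 6 ≤ k
  rc : RC k r
  l0 : 0 < l
  ql : r < l
  h0 : 0 < h
  hl : h ≤ l
  hk : h ≤ k
  W0 : 0 < W
  w1e : W = w1 * (1 - r / l)
  w11 : w1 ≤ 1
  LH : k * (1 - r) ≤ (1 - r / l) * h
  XX : (1 - r / l) * ((1 - h / k) - k * (1 - √(1 - r / l)) ^ 2) ≤ l - h
  P0 : (1 - r / l) * l ≤ (1 - h / k) + (k - 1) * (r - (1 - h / k)) →
    (1 - r / l) * l * (1 - h / k) ^ 2 ≤ r * (l - h) * ((1 - h / k) + (k - 1) * (r - (1 - h / k)))
  E3 : k * (1 - r) + r * (1 - w1) ≤ W * h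
  TA : - Real.log W ≤ (1 - k * (1 - r) / h) * ff (r / l)
  PL : ∀ c nu : ℝ, 0 < c → c ≤ 1 / 2 → r / l ≤ 1 / 2 → r / l * (l / h) * c < 1 →
    (1 - r / l) * (l / h) ≤ nu * (1 - r / l * (l / h) * c) →
    c * ((l / h - 1) * (l / h) * (3 - r / l) + r / l) ≤ l / h - 1 →
    1 ≤ (1 - k * (1 - r) / h) * (1 - nu * c) * (1 + (1 - r / l) / (l / h)) →
    r / l ≤ (1 - k * (1 - r) / h) * (1 - nu * c) →
    - Real.log W ≤ (1 - k * (1 - r) / h) * ff (r / l) - (1 - r / l) * (1 - k * (1 - r) / h) *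
      (l / h - 1) * c / 2 * ((1 - k * (1 - r) / h) * (1 - nu * c / 3) - r / l)

/-- NMO: same proof as `Q54.EM.S_NUM` (`Q68/EM/NUM.lean`); `hk` from `S_HL`. -/
def S_NMO : Prop := ∀ (ι : Type) [Fintype ι] (p x : ι → ℝ) (k : ℕ) (r l : ℝ), 6 ≤ k → RC k r →
  Op k p x r l → Nm k r l (hh k p x) (PR p x (k - 1) k) (PR p x k k) ∧ (∀ i, x i ≤ l) ∧ 0 < va p x ∧
    lam k p x = 1 - r / l

/-- the limit form: `W = 1 - r^k`, the premise of `P0` fails weakly or its conclusion holds, strict premises in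
`PL` -/
structure NLi (k : ℕ) (r l h w1 : ℝ) : Prop where
  k6 : 6 ≤ k
  rc : RC k r
  ql : r < l
  h0 : 0 < h
  hl : h ≤ l
  hk : h ≤ k
  w1e : 1 - r ^ k = w1 * (1 - r / l)
  w11 : w1 ≤ 1
  LH : k * (1 - r) ≤ (1 - r / l) * h
  XX : (1 - r / l) * ((1 - h / k) - k * (1 - √(1 - r / l)) ^ 2) ≤ l - h
  P0 : (1 - h / k) + (k - 1) * (r - (1 - h / k)) ≤ (1 - r / l) * l ∨
    (1 - r / l) * l * (1 - h / k) ^ 2 ≤ r * (l - h) * ((1 - h / k) + (k - 1) * (r - (1 - h / k)))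
  E3 : k * (1 - r) + r * (1 - w1) ≤ (1 - r ^ k) * h
  TA : - Real.log (1 - r ^ k) ≤ (1 - k * (1 - r) / h) * ff (r / l)
  PL : ∀ c nu : ℝ, 0 < c → c < 1 / 2 → r / l < 1 / 2 → r / l * (l / h) * c < 1 →
    (1 - r / l) * (l / h) < nu * (1 - r / l * (l / h) * c) →
    c * ((l / h - 1) * (l / h) * (3 - r / l) + r / l) < l / h - 1 →
    1 < (1 - k * (1 - r) / h) * (1 - nu * c) * (1 + (1 - r / l) / (l / h)) →
    r / l < (1 - k * (1 - r) / h) * (1 - nu * c) →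
    - Real.log (1 - r ^ k) ≤ (1 - k * (1 - r) / h) * ff (r / l) - (1 - r / l) *
      (1 - k * (1 - r) / h) * (l / h - 1) * c / 2 * ((1 - k * (1 - r) / h) * (1 - nu * c / 3) - r / l)

/-- NCL: limits of `Nm` with `W → 1 - r^k`. `LH` gives `k (1-r) ≤ h` and `k (1-r) ≤ (1-r/l) l = l - r`, so the
limits satisfy `0 < H`, `r < L`, and all expressions are continuous there. For `P0`: for every `j` the negation of
the premise or the conclusion holds; one of them holds for infinitely many `j`. For `PL`: the strict premises hold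
for all large `j`. -/
def S_NCL : Prop := ∀ (k : ℕ) (r : ℝ) (l h w W : ℕ → ℝ) (L H w0 : ℝ),
  (∀ j, Nm k r (l j) (h j) (w j) (W j)) → Tendsto l atTop (𝓝 L) → Tendsto h atTop (𝓝 H) →
  Tendsto w atTop (𝓝 w0) → Tendsto W atTop (𝓝 (1 - r ^ k)) → NLi k r L H w0

/-- LBD: `l` is bounded. By `TA`, `hk`: `- log W ≤ r ff (r/l) ≤ r/(1 - r/l)` (`ff q ≤ 1/(1-q)`), which tends to
`r` as `l → ∞`, whereas `- log (1 - r^k) = r ff (r/k) > r` (`CS`, `SER`). -/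
def S_LBD : Prop := ∀ (k : ℕ) (r : ℝ), 6 ≤ k → RC k r → ∃ M δ : ℝ, 0 < δ ∧
  ∀ l h w W : ℝ, Nm k r l h w W → W ≤ 1 - r ^ k + δ → l ≤ M

/-- EBs: `Q54.EM.S_EB` with `≤`. For `0 ≤ e' < e` the hypothesis of `S_EB` holds strictly with `e'` in place of `e`
(`c q ff q > 0`), so `e' ≤ 2/10` (and `≤ 2/10 t`) for all `e' < e`. -/
def S_EBs : Prop := ∀ q t c e : ℝ, 0 < q → q ≤ 37 / 100 → 0 < t → t < 1 → 45 / 100 ≤ c →
  458 / 1000 + 88 / 1000 * (q * (1 - t)) ≤ c → c ≤ 4724 / 10000 → q * (1 - t) ≤ 15456 / 100000 →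
  0 ≤ e → (1 - c * (q * (1 - t))) * ff (q * (1 - t)) ≤ (1 - c * q * (1 + e)) * ff q →
  e ≤ 2 / 10 ∧ (t ≤ 2 / 10 → e ≤ 2 / 10 * t)

/-- E18s: `Q54.EM.S_E18` with `≤` (same remark). -/
def S_E18s : Prop := ∀ q t c e : ℝ, 3 / 10 ≤ q → q ≤ 37 / 100 → 0 < t → t < 1 →
  458 / 1000 + 88 / 1000 * (q * (1 - t)) ≤ c → c ≤ 4724 / 10000 → q * (1 - t) ≤ 15456 / 100000 →
  0 ≤ e → (1 - c * (q * (1 - t))) * ff (q * (1 - t)) ≤ (1 - c * q * (1 + e)) * ff q → e ≤ 18 / 100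

/-- BPs: `Q54.EM.S_BP` with `<` in the conclusion (same proof, `Q257/EM/BP.lean`; there is room). -/
def S_BPs : Prop := ∀ q a c x : ℝ, 0 < q → q < 1 → 0 ≤ a → a ≤ 15456 / 100000 →
  458 / 1000 + 88 / 1000 * a ≤ c → c ≤ 4724 / 10000 →
  ((q ≤ 37 / 100 ∧ 3 / 10 ≤ q ∧ 1 / (q * (118 / 100)) ≤ x) ∨
   (37 / 100 ≤ q ∧ q ≤ 62 / 100 ∧ 3963 / 1000 + 39 / 100 * a - 1 / (1 - q) ≤ x) ∨
   (62 / 100 ≤ q ∧ q ≤ 686 / 1000 ∧ c / (1 - q) ≤ x)) →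
  (1 - q) * (1 - c * a) < q * (1 - c * (1 - c * a - a) + (1 - c * a - 2 * a) * x)

/-- BXBs: `Q54.EM.S_BXB` with `≤` in the second alternative (same proof, `Q154/EM/BXB.lean`; there is room). -/
def S_BXBs : Prop := ∀ q t c e : ℝ, 0 < q → q ≤ 3 / 10 → 7 / 10 ≤ t → t < 1 →
  q * (1 - t) ≤ 15456 / 100000 → 458 / 1000 + 88 / 1000 * (q * (1 - t)) ≤ c → c ≤ 4724 / 10000 →
  0 ≤ e → e ≤ 2 / 10 →
  ((1 - q) * q * (t + e) ^ 2 ≤ (1 - c * (q * (1 - t))) * e *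
    (q * (1 + e) * (1 - c * (1 - c * (q * (1 - t)) - q * (1 - t))) + (1 - c * (q * (1 - t))) -
      2 * (q * (1 - t))) ∨
   q * (1 - c * (1 - c * (q * (1 - t)) - q * (1 - t))) +
      (1 - c * (q * (1 - t)) - 2 * (q * (1 - t))) / (1 + e) ≤ (1 - q) * (1 - c * (q * (1 - t)))) →
  Dp q t c e < Gp q e

/-- NTL: `Q54.EM.S_NT` for `NLi` (same proof, `Q195/EM/NT.lean`). -/
def S_NTL : Prop := ∀ (k : ℕ) (r l h w1 q a c t e x B : ℝ), NLi k r l h w1 → q = r / l → a = r / k →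
  c = k * (1 - r) / r → t = 1 - l / k → e = l / h - 1 → x = h / r →
  B = 1 - c * (1 - c * a - a) + (1 - c * a - 2 * a) * x →
  r = 1 - c * a ∧ a = q * (1 - t) ∧ 0 < q ∧ q < 1 ∧ 0 < a ∧ 0 ≤ e ∧ t < 1 ∧ x = 1 / (q * (1 + e)) ∧
  1 - k * (1 - r) / h = 1 - c * q * (1 + e) ∧ c ≤ (1 - q) * x ∧ x ≤ 1 / q ∧ a * x ≤ 1 ∧
  (1 - c * a) * ff a ≤ (1 - c * q * (1 + e)) * ff q ∧
  (1 - q) * q * (t * (1 / (1 - c * a)) - q / ((1 - t) * (1 + √(1 - q)) ^ 2)) ≤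
    e * (1 - (1 - q) * q * (1 / (1 - c * a) - q / ((1 - t) * (1 + √(1 - q)) ^ 2))) ∧
  (q * B ≤ (1 - q) * (1 - c * a) ∨ (1 - q) * (1 - a * x) ^ 2 ≤ (1 - c * a) * (1 - q * x) * B) ∧
  (q * B ≤ (1 - q) * (1 - c * a) ∨ (1 - q) * q * (t + e) ^ 2 ≤ (1 - c * a) * e *
    (q * (1 + e) * (1 - c * (1 - c * a - a)) + (1 - c * a) - 2 * a)) ∧
  (1 + c) / (1 - r ^ k) - 1 / (1 - q) ≤ x

/-- PLSL: `Q54.EM.S_PLS` for `NLi` (same proof, `Q223/EM/PLS.lean`): with `c := d = e/(3.6 e + q)`, `nu = 6/5` all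
premises hold strictly when `e > 0` (`(1+e)(3-q) < 3.6` as `q > 0`); for `e = 0` use `TA` (`Gp q 0 = 0`). -/
def S_PLSL : Prop := ∀ (k : ℕ) (r l h w1 q a c t e : ℝ), NLi k r l h w1 → q = r / l → a = r / k →
  c = k * (1 - r) / r → t = 1 - l / k → e = l / h - 1 → q ≤ 3 / 10 → e ≤ 2 / 10 →
  (1 - c * a) * ff a ≤ (1 - c * q * (1 + e)) * ff q - Gp q e

/-- Z0L: if `l ≥ k`, i.e. `q ≤ a`: `(1 - c a) f(a) ≤ (1 - c q (1+e)) f(q) ≤ (1 - c q) f(q) ≤ (1 - c a) f(a)`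
(`NTL`, `SER` (4)), so `e = 0`, `h = l`, and `h ≤ k ≤ l`. -/
def S_Z0L : Prop := ∀ (k : ℕ) (r l h w1 : ℝ), NLi k r l h w1 → l < k ∨ (l = k ∧ h = k)

/-- ZTL: as `Q54.EM.S_ZT` (`Q257/EM`). If `l < k` and `q ≤ 62/100` and `l ≤ 8/10 k`: `q ≤ 0.3`: `PLSL` and `SER`
(3) give `Gp ≤ Dp`, against `BXA` (`t ≤ 0.7`) or `BXBs` (`t ≥ 0.7`). `0.3 < q ≤ 0.37`: `0 ≤ Dp`, against `BXC`
(`P0` by `BPs`, `E18s`). `q > 0.37`: `BXD`. -/
def S_ZTL : Prop := ∀ (k : ℕ) (r l h w1 : ℝ), NLi k r l h w1 → r / l ≤ 62 / 100 → 8 / 10 * k < l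

/-- ZEL: as `Q54.EM.S_ZE`; `l < r/0.62 < 1.613` strictly. -/
def S_ZEL : Prop := ∀ (k : ℕ) (r l h w1 : ℝ), NLi k r l h w1 → 62 / 100 < r / l →
  l * ((1 - r / l) * h - k * (1 - r)) ≤ 6 / 100 ∧ l < 1613 / 1000

/-- NLE: `e ≤ 2/10 t` in the zone `0.8 k < l < k` (`NTL`, `EBs`; `q ≤ 37/100` there). -/
def S_NLE : Prop := ∀ (k : ℕ) (r l h w1 : ℝ), NLi k r l h w1 → 8 / 10 * (k : ℝ) < l → l < k →
  l / h - 1 ≤ 2 / 10 * (1 - l / k)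

/-! ## Part D: zones -/

/-- a sequence of laws with convergent data -/
structure SQ (k : ℕ) (r : ℝ) (ι : ℕ → Type) [∀ j, Fintype (ι j)] (p x : ∀ j, ι j → ℝ) (l : ℕ → ℝ)
    (L H w : ℝ) : Prop where
  k6 : 6 ≤ k
  rc : RC k r
  op : ∀ j, Op k (p j) (x j) r (l j)
  tW : Tendsto (fun j => PR (p j) (x j) k k) atTop (𝓝 (1 - r ^ k))
  tL : Tendsto l atTop (𝓝 L)
  tH : Tendsto (fun j => hh k (p j) (x j)) atTop (𝓝 H)
  tw : Tendsto (fun j => PR (p j) (x j) (k - 1) k) atTop (𝓝 w)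

/-- GAQ: as in `Q198/EM/GAP.lean` (`gap_real`, up to the inequality `h7`): `CAN` at `y = x i`, `VEH`, the KKT
equality. With `G = (1 - x i/hh)^2`, `e = l/hh - 1`, `u = x i/k`: `G (u - r/k) ≤ e (l/k - u)`. -/
def S_GAQ : Prop := ∀ (ι : Type) [Fintype ι] (p x : ι → ℝ) (k : ℕ) (r l : ℝ), 6 ≤ k → RC k r →
  Op k p x r l → ∀ i, x i < hh k p x →
  (x i / k - r / k) * (1 - x i / hh k p x) ^ 2 ≤ (l / hh k p x - 1) * (l / k - x i / k)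

/-- GAPL. By `NCL`, `NMO`, `NLE` the limits satisfy `e = L/H - 1 ≤ 2/10 t`, `t = 1 - L/k ∈ (0, 2/10)`. If for
infinitely many `j` there is an atom with `u_j = x/k ∈ (a + 1/20, 1/2]`, take a convergent subsequence
`u_j → u`; `x_j/hh_j → u k/H ≤ 1.3 u ≤ 0.65` so `GAQ` applies for large `j`, and the limit is
`(u - a)(1 - u k/H)^2 ≤ e (1 - t - u) ≤ 0.2 t (1-t-u) ≤ 0.04 (0.8 - u)`, `(1 - u k/H)^2 ≥ (1 - 1.3 u)^2`,
against `Q54.EM.S_GPN`. -/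
def S_GAPL : Prop := ∀ (k : ℕ) (r : ℝ) (ι : ℕ → Type) [∀ j, Fintype (ι j)] (p x : ∀ j, ι j → ℝ)
  (l : ℕ → ℝ) (L H w : ℝ), SQ k r ι p x l L H w → 8 / 10 * (k : ℝ) < L → L < k →
  ∀ᶠ j in atTop, ∀ i, x j i ≤ r + k / 20 ∨ (k : ℝ) / 2 < x j i

/-- the data of the zone `0.8 k < l < k` -/
structure DT (k : ℕ) (r t a e w1 W pp A dl ms s : ℝ) : Prop where
  pp0 : 0 ≤ pp
  pp1 : k * pp ≤ r
  dl0 : 0 ≤ dl
  dl1 : dl ≤ 1
  A0 : 0 ≤ A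
  A1 : A ≤ 1
  eW : W * (1 - t) = ((1 - pp) ^ k - A) * (1 - t) + k * pp * w1 * dl
  em : ms = r - k * pp * (1 - t - dl)
  ms1 : ms * (1 - t - (a + 1 / 20)) * (1 + e) ≤ (1 - t - a) * (e + t)
  hA : A * ((1 - (a + 1 / 20)) * (1 - 2 * (a + 1 / 20))) ≤ ms ^ 3
  s0 : t ≤ s
  s1 : s ≤ t + dl
  mn : (s * (1 - pp) ^ (k - 1) - (1 - 1 / k) * ms * (1 - pp) ^ (k - 2)) * ms * (1 - t) +
    (1 - (a + 1 / 20) - s) * A * (1 - t) ≤ s * w1 * (s - t) * ms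

/-- W1D: the first part of the proof of `Q54.EM.S_W1` (`Q102/EM/W1.lean`, up to the application of `W1N`).
`e ≤ 3/10` replaces `e ≤ 2/10 t`; it gives `ms ≤ 0.42 < r`, so `pp > 0`. -/
def S_W1D : Prop := ∀ (ι : Type) [Fintype ι] (p x : ι → ℝ) (k : ℕ) (r l : ℝ), 6 ≤ k → RC k r →
  Op k p x r l → 8 / 10 * (k : ℝ) < l → l < k → l / hh k p x - 1 ≤ 3 / 10 →
  (∀ i, x i ≤ r + k / 20 ∨ (k : ℝ) / 2 < x i) → ∃ pp A dl ms s : ℝ,
  DT k r (1 - l / k) (r / k) (l / hh k p x - 1) (PR p x (k - 1) k) (PR p x k k) pp A dl ms s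

/-- W1L: as `Q54.EM.S_W1N` (`Q102/EM/W1N.lean`), with `W = 1 - r^k`. `u = r - k pp`, `ms ≤ 1301/1000 t` from
`ms1` and `e ≤ 2/10 t` (`w1_ms` in `Q102/EM/W1.lean`). If `A > 0` the same chain gives
`0.455 A ≤ (1-b-s) A ≤ 1.6 · 0.2602 A`, a contradiction. If `A = 0` then `u = 0` and `dl = 0` (from `eW`, which says
`T u/(1-a) + (r-u) w1 dl/(1-t) ≤ A`), so `s = t`, `pp = r/k`, `ms = r t > 0`, and `mn` gives
`1 - pp ≤ (1 - 1/k) r`, i.e. `1 ≤ r`. -/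
def S_W1L : Prop := ∀ (k : ℕ) (r t q a e w1 W pp A dl ms s : ℝ), 6 ≤ k → RC k r → W = 1 - r ^ k →
  a = r / k → q * (1 - t) = a → q < 1 → W = w1 * (1 - q) → 0 < t → t ≤ 2 / 10 → 0 ≤ e → e ≤ 2 / 10 * t →
  DT k r t a e w1 W pp A dl ms s → False

/-- SQ1: no sequence with limit in the zone `0.8 k < L < k`. For large `j`: `0.8 k < l_j < k`, `e_j ≤ 3/10`
(`NLE`), `GAPL`, `W1D`. The numbers `pp, A, dl, s` are in `[0,2]`, `ms` in `[-k, k]`: take a convergent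
subsequence; `DT` is a closed condition (all relations are polynomial), so `W1L` applies to the limit. -/
def S_SQ1 : Prop := ∀ (k : ℕ) (r : ℝ) (ι : ℕ → Type) [∀ j, Fintype (ι j)] (p x : ∀ j, ι j → ℝ)
  (l : ℕ → ℝ) (L H w : ℝ), SQ k r ι p x l L H w → 8 / 10 * (k : ℝ) < L → L < k → False

/-- STL: `W (k - hh) = E[S_k ; S_k < k] ≥ ∑_{x i < k} p i x i P(X = 0)^(k-1)` (first entry `i`, the others zero),
`P(X = 0) ≥ 1 - r` (`b1`), `W ≤ 1`, and `min (x) (k-x) ≤ x`, `= 0` for `x = k`. -/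
def S_STL : Prop := ∀ (ι : Type) [Fintype ι] (p x : ι → ℝ) (k : ℕ) (r l : ℝ), 6 ≤ k → RC k r →
  Op k p x r l → dS k p x * (1 - r) ^ (k - 1) ≤ k - hh k p x

/-- CLL: as the proof of `Q54.EM.S_W2` (`Q68/EM/W2.lean`), quantitative. `P = P(X > 0) ≤ r`, `pc` the conditional
law, `d = ∑ pc x - 1 ≥ 0`, `k (v2 + d) ≤ 0.06001/P ≤ 0.066` (`LZ`; `P ≥ r - 0.06001/k`), `g = PR pc x k k`,
`GP pc x k k ≤ 1.5 g` (`KAP`), `1 - PR pc x (k-1) k ≤ 0.66 (1.5 g + k d)` (`THE`), `MXP`: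
`1 - PR p x k k ≤ P^k (1-g) + (1-P^k)(0.99 g + 0.66 k d)`, and `r^k ≥ P^k (1 + k d)`, `P^k ≥ 0.58`; with
`D = PR p x k k - (1 - r^k)` this gives `0.3 k d + 0.16 g ≤ D`. Then `E_c |S_k - k| = 2 GP pc x k k + k d ≤
3 g + k d ≤ 25 D`, `E_c|X - X'| ≤ 2 E_c|S_k - k|` (independent copy of one entry), Jensen:
`E_c|X - 1| ≤ 2 E_c|S_k-k| + d ≤ 60 D`, and `dC p x ≤ P E_c |X - 1|`. -/
def S_CLL : Prop := ∀ (ι : Type) [Fintype ι] (p x : ι → ℝ) (k : ℕ) (r l : ℝ), 6 ≤ k → RC k r →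
  Op k p x r l → l ≤ 1613 / 1000 → l * (lam k p x * hh k p x - k * (1 - r)) ≤ 6001 / 100000 →
  dC p x ≤ 60 * (PR p x k k - (1 - r ^ k))

/-- CPT. By contradiction: for every `j` a law with `PR ≤ 1 - r^k + 1/(j+1)`, `dS ≥ γ`, `dC ≥ γ`; `PR ≥ 1 - r^k`
by `KEY`. `LBD`: `l_j` bounded (and `> r > 0`), `0 < h_j ≤ k`, `0 < w_j ≤ 1` (`NMO`): a subsequence is `SQ`, and
`NCL` gives `NLi` for the limits. `Z0L`: if `L = H = k`, `STL` gives `dS_j → 0`. Otherwise `L < k`. If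
`r/L ≤ 62/100`: `ZTL`, `SQ1`. If `r/L > 62/100`: `ZEL`, and for large `j` `CLL` applies (`lam = 1 - r/l`), so
`dC_j → 0`. -/
def S_CPT : Prop := ∀ (k : ℕ) (r γ : ℝ), 6 ≤ k → RC k r → 0 < γ → ∃ η : ℝ, 0 < η ∧
  ∀ (ι : Type) [Fintype ι] (p x : ι → ℝ) (l : ℝ), Op k p x r l → PR p x k k ≤ 1 - r ^ k + η →
  dS k p x < γ ∨ dC p x < γ

/-- UNI (stability of the i.i.d. inequality at the critical density). Let `κ`, `γ0` be as in `LSS` and `LCS`, and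
`γ < γ0` without loss of generality, `η = min (κ γ/2) (η_CPT (γ0)) (r^k/2)`. If `dS > γ`, `dC > γ`: put the law on
`Option (Option ι)` with weight `0` at the atoms `none` (value `0`) and `some none` (value `k`); `RMN` gives a
minimiser `(p', x')` of the class `Rc k r γ`, with `PR ≤ 1 - r^k + η`. If `dS ≤ γ0` for it, `LSS` gives
`PR ≥ 1 - r^k + κ γ`, a contradiction; so `dS > γ0` and (same with `LCS`) `dC > γ0`; `RLM`, `LOP`, `CPT` with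
`γ0`. -/
def S_UNI : Prop := ∀ (k : ℕ) (r γ : ℝ), 6 ≤ k → RC k r → 0 < γ → ∃ η : ℝ, 0 < η ∧
  ∀ (ι : Type) [Fintype ι] (p x : ι → ℝ), Fz k r p x → PR p x k k ≤ 1 - r ^ k + η →
  dS k p x ≤ γ ∨ dC p x ≤ γ

/-! ## Part E: hypergraphs -/

/-- the stability statement at the critical density, in the form used below -/
def WIN (k : ℕ) : Prop := ∀ c : ℝ, Crt k c → ∀ γ : ℝ, 0 < γ → ∃ η : ℝ, 0 < η ∧
  ∀ (ι : Type) [Fintype ι] (p y : ι → ℝ), Wl p y → mu p y ≤ c + η →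
    ((k : ℝ) * c) ^ k - η ≤ UP p y k 1 →
    (∑ i, if γ < y i ∧ y i < 1 - γ then p i else 0) ≤ γ ∨
    (∑ i, if γ < y i ∧ γ < |y i - 1 / (k : ℝ)| then p i else 0) ≤ γ

/-- WNI: `UNI` gives `WIN` for `k ≥ 6`. `r = k c` satisfies `RC k r`. Let `x i = min (k y i) k`, mean
`m' ≤ k (c + η)`, and `PR p x k k = 1 - UP p y k 1` (scaling by `k`; truncation at `k` changes nothing). On
`Option ι`: if `m' > r` mix with an atom of value `0` and weight `s = (m' - r)/m'` (small, at most `k η/r`; `PR`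
increases by at most `k s`); if `m' ≤ r` mix with an atom of value `k` with weight `s = (r - m')/(k - m')`
(`PR` does not increase; `s` is small: `PR` is multiplied by `(1-s)^k` (`MXT`) and stays `≥ 1 - r^k` by
`KEY`/`LMW`, whereas it was `≤ 1 - r^k + η`). `UNI` with a small `γ'`; Markov: `min x (k - x) ≥ k γ` when
`γ < y < 1 - γ`, and `min x |x - 1| ≥ min (k γ) 1` when `γ < y` and `γ < |y - 1/k|`; the weights of `ι` were
multiplied by `1 - s ≥ 1/2`. -/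
def S_WNI : Prop := ∀ k : ℕ, 6 ≤ k → LMW k → S_UNI → WIN k

/-- DIT (structure from a star-like cover): the last part of the proof of `XM.S_DIS`. `S = {v : 1 - γ' ≤ y v}`. -/
def S_DIT : Prop := ∀ k : ℕ, 2 ≤ k → ∀ x0 γ : ℝ, 0 < x0 → 0 < γ → ∃ γ' : ℝ, 0 < γ' ∧ ∃ n0 : ℕ,
  ∀ n : ℕ, n0 ≤ n → ∀ F : Finset (Finset (Fin n)), Unif k F → ∀ s : ℕ, x0 * n ≤ s → 2 * s ≤ n →
    n.choose k - (n - s).choose k ≤ F.card →
    ∀ y : Fin n → ℝ, (∀ v, 0 ≤ y v) → ∑ v, y v ≤ s + γ' * n →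
      (((univ.filter (fun v : Fin n => γ' < y v ∧ y v < 1 - γ')).card : ℕ) : ℝ) ≤ γ' * n →
      ((F.filter (fun e => ∑ v ∈ e, y v < 1)).card : ℝ) ≤ γ' * (n : ℝ) ^ k →
    (s : ℝ) - γ * n ≤ ((univ.filter (fun v : Fin n =>
      (1 - γ) * (((n - 1).choose (k - 1) : ℕ) : ℝ) ≤ (dg F v : ℝ))).card : ℝ)

/-- WST (structure in the window). `NEC` with `x0 = c/2`, small `η`, `δ`, `c1`: `y`, `x` with
`|x - c| ≤ ε + δ`, `NG y k ≥ (mv k x - η) n^k`, `mv k x ≥ (k c)^k - C |x - c|`. `WIN` for the uniform law (`BRG`),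
then `DIT` or `XM.S_TYC`. -/
def S_WST : Prop := ∀ k : ℕ, 3 ≤ k → WIN k → ∀ c : ℝ, Crt k c → ∀ γ : ℝ, 0 < γ → ∃ ε : ℝ, 0 < ε ∧
  ∃ n0 : ℕ, ∀ n : ℕ, n0 ≤ n → ∀ F : Finset (Finset (Fin n)), Unif k F → ∀ s : ℕ,
    |(s : ℝ) - c * n| ≤ ε * n → k * (s + 1) ≤ n → ¬ HasM F (s + 1) →
    max (n.choose k - (n - s).choose k) ((k * (s + 1) - 1).choose k) ≤ F.card →
    (s : ℝ) - γ * n ≤ ((univ.filter (fun v : Fin n =>
      (1 - γ) * (((n - 1).choose (k - 1) : ℕ) : ℝ) ≤ (dg F v : ℝ))).card : ℝ) ∨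
    ∃ T : Finset (Fin n), (k : ℝ) * s - γ * n ≤ (T.card : ℝ) ∧
      ∀ v ∈ T, (ms k F T v : ℝ) ≤ γ * (n : ℝ) ^ (k - 1)

/-- XMW: the window. `γ` the smaller one of those in `XM.S_SFN` (`ξ = (1 - k c)/2`) and `XM.S_CLQ` (with `c/2 ∨ ..`:
take `c' < c` with `2 (k c')^(k-1) > 1`); both statements are monotone in `γ`. -/
def S_XMW : Prop := ∀ k : ℕ, 3 ≤ k → WIN k → ∀ c : ℝ, Crt k c → ∃ ε : ℝ, 0 < ε ∧ ∃ n0 : ℕ,
  ∀ n : ℕ, n0 ≤ n → ∀ s : ℕ, |(s : ℝ) - c * n| ≤ ε * n → k * (s + 1) ≤ n →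
  ∀ F : Finset (Finset (Fin n)), Unif k F →
    max (n.choose k - (n - s).choose k) ((k * (s + 1) - 1).choose k) < F.card → HasM F (s + 1)

/-- the exact Erdős matching conjecture for large `n` -/
def XALL (k : ℕ) : Prop := ∃ n0 : ℕ, ∀ n : ℕ, n0 ≤ n → ∀ s : ℕ, k * (s + 1) ≤ n →
  ∀ F : Finset (Finset (Fin n)), Unif k F →
    max (n.choose k - (n - s).choose k) ((k * (s + 1) - 1).choose k) < F.card → HasM F (s + 1)

/-- MAIN: `XMC` (outside the window) and `XMW` (inside), `CRU`. -/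
def S_XAL : Prop := ∀ k : ℕ, 3 ≤ k → LMW k → WIN k → XALL k

end Pool.Agent.Q113.XU
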