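import Pool.Agent.Q113.XM.All
import Pool.Agent.Q128.XU.LSS
import Pool.Agent.Q224.XU.CTE
import Pool.Agent.Q166.XU.CAA
import Pool.Agent.Q121.XU.RMN
import Pool.Agent.Q121.XU.STRL
import Pool.Agent.Q121.XU.KKTL
import Pool.Agent.Q148.XU.NMO
import Pool.Agent.Q176.XU.NCL
import Pool.Agent.Q166.XU.LBD
import Pool.Agent.Q96.XU.EBs
import Pool.Agent.Q182.XU.BXBs
import Pool.Agent.Q166.XU.NTL
import Pool.Agent.Q166.XU.PLSL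
import Pool.Agent.Q16.XU.Z0L
import Pool.Agent.Q176.XU.ZTL
import Pool.Agent.Q166.XU.ZEL
import Pool.Agent.Q148.XU.NLE
import Pool.Agent.Q16.XU.GAQ
import Pool.Agent.Q150.XU.GAPL
import Pool.Agent.Q275.XU.W1D
import Pool.Agent.Q182.XU.W1L
import Pool.Agent.Q102.XU.SQ1
import Pool.Agent.Q96.XU.STL
import Pool.Agent.Q224.XU.CLL
import Pool.Agent.Q102.XU.UNI
import Pool.Agent.Q182.XU.WNI
import Pool.Agent.Q102.XU.DIT
import Pool.Agent.Q102.XU.WST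

/-!
# Project XU: assembly (without `LCS`, `CPT`)
-/

set_option autoImplicit false

namespace Pool.Agent.Q113.XU

open Finset Pool.Agent.Q54.EM Pool.Agent.Q113.XM Pool.Agent.W890.SF Pool.Agent.W593.IR

theorem t_LSS : S_LSS := Pool.Agent.Q128.XU.t_LSS
theorem t_CTE : S_CTE := Pool.Agent.Q224.XU.t_CTE t_TUP
theorem t_CAA : S_CAA := Pool.Agent.Q166.XU.t_CAA t_CRF
theorem t_RMN : S_RMN := Pool.Agent.Q121.XU.t_RMN t_TUP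
theorem t_RLM : S_RLM := Pool.Agent.Q121.XU.t_RLM
theorem t_STRL : S_STRL := Pool.Agent.Q121.XU.t_STRL t_MXT t_PSP
theorem t_MBL : S_MBL := Pool.Agent.Q121.XU.t_MBL t_TUP t_STRL
theorem t_KKTL : S_KKTL := Pool.Agent.Q121.XU.t_KKTL t_DER t_PSP t_TUP t_EEL t_MBL
theorem t_LOP : S_LOP := Pool.Agent.Q121.XU.t_LOP t_RES t_MBL t_KKTL
theorem t_NMO : S_NMO := Pool.Agent.Q148.XU.t_NMO
theorem t_NCL : S_NCL := Pool.Agent.Q176.XU.t_NCL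
theorem t_LBD : S_LBD := Pool.Agent.Q166.XU.t_LBD
theorem t_EBs : S_EBs := Pool.Agent.Q96.XU.t_EBs
theorem t_E18s : S_E18s := Pool.Agent.Q96.XU.t_E18s
theorem t_BPs : S_BPs := Pool.Agent.Q96.XU.t_BPs
theorem t_BXBs : S_BXBs := Pool.Agent.Q182.XU.t_BXBs
theorem t_NTL : S_NTL := Pool.Agent.Q166.XU.t_NTL
theorem t_PLSL : S_PLSL := Pool.Agent.Q166.XU.t_PLSL t_NTL
theorem t_Z0L : S_Z0L := Pool.Agent.Q16.XU.t_Z0L t_CS t_SER t_NTL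
theorem t_ZTL : S_ZTL := Pool.Agent.Q176.XU.t_ZTL t_CS t_SER t_BXA t_BXC t_BXD t_NTL t_EBs t_E18s t_BPs
  t_BXBs t_PLSL
theorem t_ZEL : S_ZEL := Pool.Agent.Q166.XU.t_ZEL t_NTL t_BPs
theorem t_NLE : S_NLE := Pool.Agent.Q148.XU.t_NLE t_NTL t_EBs
theorem t_GAQ : S_GAQ := Pool.Agent.Q16.XU.t_GAQ t_VEH t_CAN t_POS t_NMO
theorem t_GAPL : S_GAPL := Pool.Agent.Q150.XU.t_GAPL t_CS t_GPN t_NMO t_NCL t_NLE t_GAQ
theorem t_W1D : S_W1D := Pool.Agent.Q275.XU.t_W1D t_NMO t_CS t_THT t_DEC t_SMA t_EEL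
theorem t_W1L : S_W1L := Pool.Agent.Q182.XU.t_W1L
theorem t_SQ1 : S_SQ1 := Pool.Agent.Q102.XU.t_SQ1 t_NMO t_NCL t_NLE t_GAPL t_W1D t_W1L
theorem t_STL : S_STL := Pool.Agent.Q96.XU.t_STL
theorem t_CLL : S_CLL := Pool.Agent.Q224.XU.t_CLL t_KAP t_THE t_MXP t_LZ t_CS t_EEL t_LMB
theorem t_WNI : S_WNI := Pool.Agent.Q182.XU.t_WNI
theorem t_DIT : S_DIT := Pool.Agent.Q102.XU.t_DIT t_DI3X
theorem t_WST : S_WST := Pool.Agent.Q102.XU.t_WST t_NEC t_BRG t_DIT t_TYC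

end Pool.Agent.Q113.XU
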